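import Mathlib

set_option autoImplicit false
set_option linter.unusedSectionVars false

namespace Pool.Agent.Results.MP_1867c4_co.BipartiteRatio

open Finset

universe u

variable {V : Type u}

section defs

variable [Fintype V]

/-- the eccentricity of `v` (in a connected graph) -/
noncomputable def ecc (G : SimpleGraph V) (v : V) : ℕ :=
  Finset.univ.sup (fun u => G.dist v u)

/-- broadcasts of a connected graph -/
def IsBroadcast (G : SimpleGraph V) (f : V → ℕ) : Prop := ∀ v, f v ≤ ecc G v

/-- `u` hears `f` from the broadcasting vertex `v` -/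
def Hears (G : SimpleGraph V) (f : V → ℕ) (u v : V) : Prop := 0 < f v ∧ G.dist u v ≤ f v

/-- dominating broadcasts -/
def Dominating (G : SimpleGraph V) (f : V → ℕ) : Prop := ∀ u, ∃ v, Hears G f u v

open Classical in
/-- `f_v^-` : the value at `v` is lowered by one -/
noncomputable def lower (f : V → ℕ) (v : V) : V → ℕ := fun w => if w = v then f w - 1 else f w

/-- the private boundary of `v` -/
def PB (G : SimpleGraph V) (f : V → ℕ) (v : V) : Set V :=
  {u | G.dist u v ≤ f v ∧ ∀ w, ¬ Hears G (lower f v) u w}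

/-- irredundant broadcasts -/
def Irredundant (G : SimpleGraph V) (f : V → ℕ) : Prop := ∀ v, 0 < f v → (PB G f v).Nonempty

/-- minimal dominating broadcasts -/
def IsMinDom (G : SimpleGraph V) (f : V → ℕ) : Prop :=
  IsBroadcast G f ∧ Dominating G f ∧
    ∀ g, IsBroadcast G g → (∀ v, g v ≤ f v) → g ≠ f → ¬ Dominating G g

/-- the cost of a broadcast -/
def cost (f : V → ℕ) : ℕ := ∑ v, f v

/-- the upper broadcast number `Γ_b(G)` -/
noncomputable def Gammab (G : SimpleGraph V) : ℕ := sSup {c | ∃ f, IsMinDom G f ∧ cost f = c}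

/-- the upper broadcast irredundance number `IR_b(G)` -/
noncomputable def IRb (G : SimpleGraph V) : ℕ :=
  sSup {c | ∃ f, IsBroadcast G f ∧ Irredundant G f ∧ cost f = c}

end defs

/-- the ratios `IR_b(G)/Γ_b(G)` of the connected bipartite graphs with at least two vertices -/
def ratios : Set ℝ :=
  {r | ∃ (V : Type) (_ : Fintype V) (G : SimpleGraph V), G.Connected ∧ 2 ≤ Fintype.card V ∧
    G.IsBipartite ∧ r = (IRb G : ℝ) / (Gammab G : ℝ)}

/-! ### distances -/

/-- distance at most `k` -/
def N (G : SimpleGraph V) (u v : V) (k : ℕ) : Prop := ∃ p : G.Walk u v, p.length ≤ k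

variable {G : SimpleGraph V}

lemma N_iff (hG : G.Connected) {u v : V} {k : ℕ} : N G u v k ↔ G.dist u v ≤ k := by
  constructor
  · rintro ⟨p, hp⟩
    exact (SimpleGraph.dist_le p).trans hp
  · intro h
    obtain ⟨p, hp⟩ := hG.exists_walk_length_eq_dist u v
    exact ⟨p, by omega⟩

lemma N_self (u : V) (k : ℕ) : N G u u k := ⟨SimpleGraph.Walk.nil, by simp⟩

lemma N_symm {u v : V} {k : ℕ} (h : N G u v k) : N G v u k := by
  obtain ⟨p, hp⟩ := h
  exact ⟨p.reverse, by simpa using hp⟩

lemma N_mono {u v : V} {k l : ℕ} (h : N G u v k) (hl : k ≤ l) : N G u v l := by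
  obtain ⟨p, hp⟩ := h
  exact ⟨p, hp.trans hl⟩

lemma N_trans {u v w : V} {k l : ℕ} (h : N G u v k) (h' : N G v w l) : N G u w (k + l) := by
  obtain ⟨p, hp⟩ := h
  obtain ⟨q, hq⟩ := h'
  exact ⟨p.append q, by rw [SimpleGraph.Walk.length_append]; omega⟩

lemma N_adj {u v : V} (h : G.Adj u v) : N G u v 1 :=
  ⟨SimpleGraph.Walk.cons h SimpleGraph.Walk.nil, by simp⟩

lemma N_split {u v : V} {k l : ℕ} (h : N G u v (k + l)) : ∃ w, N G u w k ∧ N G w v l := by
  obtain ⟨p, hp⟩ := h
  refine ⟨p.getVert k, ⟨p.take k, ?_⟩, ⟨p.drop k, ?_⟩⟩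
  · rw [SimpleGraph.Walk.take_length]; exact min_le_left _ _
  · rw [SimpleGraph.Walk.drop_length]; omega

section

variable [Fintype V]

lemma dist_le_ecc (G : SimpleGraph V) (v u : V) : G.dist v u ≤ ecc G v :=
  Finset.le_sup (f := fun u => G.dist v u) (Finset.mem_univ u)

lemma pb_facts {f : V → ℕ} {v u : V} (h : u ∈ PB G f v) :
    G.dist u v ≤ f v ∧ (∀ w, w ≠ v → 0 < f w → ¬ G.dist u w ≤ f w) ∧
      (2 ≤ f v → f v ≤ G.dist u v) := by
  obtain ⟨h1, h2⟩ := h
  refine ⟨h1, ?_, ?_⟩
  · intro w hw hf hd
    apply h2 w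
    have : lower f v w = f w := by simp [lower, hw]
    unfold Hears
    rw [this]
    exact ⟨hf, hd⟩
  · intro hv
    by_contra hcon
    apply h2 v
    have : lower f v v = f v - 1 := by simp [lower]
    unfold Hears
    rw [this]
    constructor <;> omega

lemma pb_of {f : V → ℕ} {v u : V} (h1 : G.dist u v ≤ f v)
    (h2 : ∀ w, w ≠ v → 0 < f w → ¬ G.dist u w ≤ f w) (h3 : 2 ≤ f v → f v ≤ G.dist u v) :
    u ∈ PB G f v := by
  refine ⟨h1, ?_⟩
  rintro w ⟨hw1, hw2⟩
  by_cases hw : w = v
  · subst hw
    have : lower f w w = f w - 1 := by simp [lower]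
    rw [this] at hw1 hw2
    have := h3 (by omega)
    omega
  · have : lower f v w = f w := by simp [lower, hw]
    rw [this] at hw1 hw2
    exact h2 w hw hw1 hw2

/-- minimal dominating broadcasts are irredundant -/
lemma irr_of_minDom {f : V → ℕ} (hf : IsMinDom G f) : Irredundant G f := by
  classical
  obtain ⟨hb, hd, hm⟩ := hf
  intro v hv
  have hlow : ∀ w, lower f v w ≤ f w := by
    intro w
    unfold lower
    split_ifs <;> omega
  have h1 := hm (lower f v) (fun w => (hlow w).trans (hb w)) hlow ?_
  · unfold Dominating at h1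
    push Not at h1
    obtain ⟨u, hu⟩ := h1
    refine ⟨u, ?_, hu⟩
    obtain ⟨w, hw1, hw2⟩ := hd u
    by_cases hwv : w = v
    · subst hwv; exact hw2
    · exfalso
      apply hu w
      have : lower f v w = f w := by simp [lower, hwv]
      unfold Hears
      rw [this]
      exact ⟨hw1, hw2⟩
  · intro h
    have := congrFun h v
    have h2 : lower f v v = f v - 1 := by simp [lower]
    omega

lemma cost_le {f : V → ℕ} (hf : IsBroadcast G f) : cost f ≤ ∑ v, ecc G v :=
  Finset.sum_le_sum fun v _ => hf v

lemma bdd_gamma (G : SimpleGraph V) : BddAbove {c | ∃ f, IsMinDom G f ∧ cost f = c} :=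
  ⟨∑ v, ecc G v, by rintro c ⟨f, hf, rfl⟩; exact cost_le hf.1⟩

lemma bdd_ir (G : SimpleGraph V) :
    BddAbove {c | ∃ f, IsBroadcast G f ∧ Irredundant G f ∧ cost f = c} :=
  ⟨∑ v, ecc G v, by rintro c ⟨f, hf, -, rfl⟩; exact cost_le hf⟩

lemma ecc_pos (hG : G.Connected) (h2 : 2 ≤ Fintype.card V) (v : V) : 0 < ecc G v := by
  obtain ⟨u, hu⟩ := Fintype.exists_ne_of_one_lt_card (by omega) v
  exact lt_of_lt_of_le (hG.pos_dist_of_ne (Ne.symm hu)) (dist_le_ecc G v u)

/-- independent sets give lower bounds for `Γ_b` -/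
lemma indep_le (hG : G.Connected) (h2 : 2 ≤ Fintype.card V) (I : Finset V)
    (hI : ∀ x ∈ I, ∀ y ∈ I, ¬ G.Adj x y) : I.card ≤ Gammab G := by
  classical
  let A : Finset (Finset V) := Finset.univ.filter (fun I => ∀ x ∈ I, ∀ y ∈ I, ¬ G.Adj x y)
  obtain ⟨M, hM, hmax⟩ := A.exists_max_image Finset.card ⟨I, by simpa [A] using hI⟩
  have hMi : ∀ x ∈ M, ∀ y ∈ M, ¬ G.Adj x y := by simpa [A] using hM
  refine (hmax I (by simpa [A] using hI)).trans ?_
  apply le_csSup (bdd_gamma G)
  refine ⟨fun v => if v ∈ M then 1 else 0, ⟨?_, ?_, ?_⟩, ?_⟩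
  · intro v
    have := ecc_pos hG h2 v
    dsimp only
    split_ifs <;> omega
  · intro u
    by_cases hu : u ∈ M
    · refine ⟨u, ?_, ?_⟩
      · simp only [if_pos hu]; omega
      · simp
    · by_contra hcon
      have hno : ∀ w ∈ M, ¬ G.Adj u w := by
        intro w hw hadj
        apply hcon
        refine ⟨w, ?_, ?_⟩
        · simp only [if_pos hw]; omega
        · simp only [if_pos hw]
          exact (N_iff hG).1 (N_adj hadj)
      have hins : insert u M ∈ A := by
        simp only [A, Finset.mem_filter, Finset.mem_univ, true_and]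
        intro x hx y hy
        rw [Finset.mem_insert] at hx hy
        rcases hx with rfl | hx <;> rcases hy with rfl | hy
        · exact G.loopless.irrefl _
        · exact hno y hy
        · exact fun h => hno x hx h.symm
        · exact hMi x hx y hy
      have := hmax _ hins
      rw [Finset.card_insert_of_notMem hu] at this
      omega
  · intro g hg hle hne hdom
    obtain ⟨v, hv⟩ : ∃ v, g v ≠ (fun v => if v ∈ M then 1 else 0) v := by
      by_contra hcon
      push Not at hcon
      exact hne (funext hcon)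
    have hlev := hle v
    dsimp only at hv hlev
    by_cases hvM : v ∈ M
    · rw [if_pos hvM] at hv hlev
      have hg0 : g v = 0 := by omega
      obtain ⟨w, hw1, hw2⟩ := hdom v
      have hlew := hle w
      dsimp only at hlew
      by_cases hwM : w ∈ M
      · rw [if_pos hwM] at hlew
        have hd : G.dist v w ≤ 1 := by omega
        have hne' : v ≠ w := by rintro rfl; omega
        have h3 := hG.pos_dist_of_ne hne'
        have h4 : G.dist v w = 1 := by omega
        exact hMi v hvM w hwM (SimpleGraph.dist_eq_one_iff_adj.1 h4)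
      · rw [if_neg hwM] at hlew
        omega
    · rw [if_neg hvM] at hv hlev
      omega
  · unfold cost
    rw [Finset.sum_boole]
    simp

/-- the upper bound for bipartite graphs -/
lemma upper (hG : G.Connected) (h2 : 2 ≤ Fintype.card V) (hb : G.IsBipartite) {f : V → ℕ}
    (hirr : Irredundant G f) : cost f < 2 * Gammab G := by
  classical
  obtain ⟨C⟩ := hb
  have hir' : ∀ v, ∃ u, 0 < f v → u ∈ PB G f v := by
    intro v
    by_cases hv : 0 < f v
    · obtain ⟨u, hu⟩ := hirr v hv
      exact ⟨u, fun _ => hu⟩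
    · exact ⟨v, fun h => absurd h hv⟩
  choose p hp using hir'
  set S : Finset V := Finset.univ.filter (fun v => 0 < f v) with hS
  have memS : ∀ v, v ∈ S ↔ 0 < f v := fun v => by simp [hS]
  have hcost : cost f = ∑ v ∈ S, f v := by
    unfold cost
    rw [hS, Finset.sum_filter]
    apply Finset.sum_congr rfl
    intro v _
    split_ifs <;> omega
  have hfacts : ∀ v ∈ S, G.dist v (p v) ≤ f v ∧ (∀ w, w ≠ v → 0 < f w → ¬ G.dist (p v) w ≤ f w) ∧
      (2 ≤ f v → f v ≤ G.dist v (p v)) := by
    intro v hv
    have := pb_facts (hp v ((memS v).1 hv))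
    rw [SimpleGraph.dist_comm] at this
    exact this
  obtain ⟨v₀⟩ := hG.nonempty
  have hpos : 1 ≤ Gammab G := by
    have := indep_le hG h2 {v₀} (by
      intro x hx y hy
      rw [Finset.mem_singleton] at hx hy
      subst hx; subst hy
      exact G.loopless.irrefl _)
    simpa using this
  by_cases hex : ∃ v ∈ S, f v ≤ G.dist v (p v)
  · -- intervals
    let I : V → Finset V := fun v =>
      Finset.univ.filter (fun x => G.dist v x + G.dist x (p v) = G.dist v (p v))
    have hIcard : ∀ v, G.dist v (p v) + 1 ≤ (I v).card := by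
      intro v
      have hsub : Finset.range (G.dist v (p v) + 1) ⊆ (I v).image (fun x => G.dist v x) := by
        intro j hj
        rw [Finset.mem_range] at hj
        rw [Finset.mem_image]
        have h3 : N G v (p v) (j + (G.dist v (p v) - j)) := (N_iff hG).2 (by omega)
        obtain ⟨x, hx1, hx2⟩ := N_split h3
        rw [N_iff hG] at hx1 hx2
        have h4 := hG.dist_triangle (u := v) (v := x) (w := p v)
        refine ⟨x, ?_, by omega⟩
        simp only [I, Finset.mem_filter, Finset.mem_univ, true_and]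
        omega
      have := Finset.card_le_card hsub
      rw [Finset.card_range] at this
      exact this.trans Finset.card_image_le
    have hdisj : ∀ v ∈ S, ∀ w ∈ S, v ≠ w → Disjoint (I v) (I w) := by
      intro v hv w hw hvw
      rw [Finset.disjoint_left]
      intro x hx hx'
      simp only [I, Finset.mem_filter, Finset.mem_univ, true_and] at hx hx'
      obtain ⟨a1, a2, -⟩ := hfacts v hv
      obtain ⟨b1, b2, -⟩ := hfacts w hw
      have c1 := a2 w (Ne.symm hvw) ((memS w).1 hw)
      have c2 := b2 v hvw ((memS v).1 hv)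
      have c3 := hG.dist_triangle (u := p v) (v := x) (w := w)
      have c4 := hG.dist_triangle (u := p w) (v := x) (w := v)
      have c5 := SimpleGraph.dist_comm (G := G) (u := p v) (v := x)
      have c6 := SimpleGraph.dist_comm (G := G) (u := p w) (v := x)
      have c7 := SimpleGraph.dist_comm (G := G) (u := w) (v := x)
      have c8 := SimpleGraph.dist_comm (G := G) (u := v) (v := x)
      omega
    set U : Finset V := S.biUnion I with hU
    have hUcard : U.card = ∑ v ∈ S, (I v).card := Finset.card_biUnion hdisj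
    have hUge : cost f + 1 ≤ U.card := by
      rw [hUcard, hcost]
      obtain ⟨v₁, hv₁, hv₁'⟩ := hex
      have h3 : ∑ v ∈ S, f v < ∑ v ∈ S, (I v).card := by
        apply Finset.sum_lt_sum
        · intro v hv
          obtain ⟨-, -, a3⟩ := hfacts v hv
          have := hIcard v
          by_cases hfv : 2 ≤ f v
          · have := a3 hfv
            omega
          · omega
        · refine ⟨v₁, hv₁, ?_⟩
          have := hIcard v₁
          omega
      omega
    have hcol : ∀ c : Fin 2, (U.filter (fun x => C x = c)).card ≤ Gammab G := by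
      intro c
      apply indep_le hG h2
      intro x hx y hy hadj
      rw [Finset.mem_filter] at hx hy
      exact C.valid hadj (hx.2.trans hy.2.symm)
    have hsplit : U.card = ∑ c : Fin 2, (U.filter (fun x => C x = c)).card :=
      Finset.card_eq_sum_card_fiberwise (fun x _ => Finset.mem_univ (C x))
    rw [Fin.sum_univ_two] at hsplit
    have := hcol 0
    have := hcol 1
    omega
  · push Not at hex
    have hone : ∀ v ∈ S, f v = 1 ∧ v = p v := by
      intro v hv
      have h3 := hex v hv
      obtain ⟨-, -, a3⟩ := hfacts v hv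
      have h4 := (memS v).1 hv
      by_cases hfv : 2 ≤ f v
      · have := a3 hfv
        omega
      · have h5 : f v = 1 := by omega
        refine ⟨h5, ?_⟩
        have h6 : G.dist v (p v) = 0 := by omega
        exact (hG.dist_eq_zero_iff).1 h6
    have hSi : ∀ x ∈ S, ∀ y ∈ S, ¬ G.Adj x y := by
      intro x hx y hy hadj
      obtain ⟨-, a2, -⟩ := hfacts x hx
      have h3 := a2 y hadj.ne' ((memS y).1 hy)
      rw [← (hone x hx).2, (hone y hy).1] at h3
      exact h3 ((N_iff hG).1 (N_adj hadj))
    have h7 : cost f = S.card := by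
      rw [hcost, Finset.card_eq_sum_ones]
      exact Finset.sum_congr rfl fun v hv => (hone v hv).1
    have := indep_le hG h2 S hSi
    omega

lemma IRb_lt (hG : G.Connected) (h2 : 2 ≤ Fintype.card V) (hb : G.IsBipartite) :
    IRb G < 2 * Gammab G := by
  have hmem : IRb G ∈ {c | ∃ f, IsBroadcast G f ∧ Irredundant G f ∧ cost f = c} := by
    apply Nat.sSup_mem _ (bdd_ir G)
    exact ⟨_, fun _ => 0, fun v => Nat.zero_le _, fun v hv => absurd hv (by simp), rfl⟩
  obtain ⟨f, hf1, hf2, hf3⟩ := hmem
  rw [← hf3]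
  exact upper hG h2 hb hf2

end

/-! ### the examples -/

section examples

/-- vertices: side, level, index (`none` for the two additional vertices of each level) -/
abbrev W (k m : ℕ) : Type := Bool × Fin (k + 1) × Option (Fin m)

/-- every level is complete bipartite; the vertices with the same side and index form a path -/
def GG (k m : ℕ) : SimpleGraph (W k m) where
  Adj x y := (x.1 ≠ y.1 ∧ x.2.1 = y.2.1) ∨
    (x.1 = y.1 ∧ x.2.2 = y.2.2 ∧ x.2.2 ≠ none ∧
      ((x.2.1 : ℕ) + 1 = (y.2.1 : ℕ) ∨ (y.2.1 : ℕ) + 1 = (x.2.1 : ℕ)))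
  symm := ⟨by
    rintro x y (⟨h1, h2⟩ | ⟨h1, h2, h3, h4⟩)
    · exact Or.inl ⟨Ne.symm h1, h2.symm⟩
    · exact Or.inr ⟨h1.symm, h2.symm, h2 ▸ h3, h4.symm⟩⟩
  loopless := ⟨by
    rintro x (⟨h1, h2⟩ | ⟨h1, h2, h3, h4⟩)
    · exact h1 rfl
    · omega⟩

variable {k m : ℕ}

/-- level difference -/
def ld (x y : W k m) : ℕ := ((x.2.1 : ℕ) - (y.2.1 : ℕ)) + ((y.2.1 : ℕ) - (x.2.1 : ℕ))

/-- horizontal part of the distance -/
def off (x y : W k m) : ℕ := if x.1 = y.1 then (if x.2.2 = y.2.2 then 0 else 2) else 1

lemma low {x y : W k m} {n : ℕ} (h : N (GG k m) x y n) : ld x y + off x y ≤ n := by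
  obtain ⟨p, hp⟩ := h
  refine le_trans ?_ hp
  clear hp
  induction p with
  | nil => simp [ld, off]
  | @cons a b c hab q ih =>
    rw [SimpleGraph.Walk.length_cons]
    have h1 : ld a c + off a c ≤ ld b c + off b c + 1 := by
      rcases hab with ⟨h1, h2⟩ | ⟨h1, h2, h3, h4⟩
      · have e1 : ld a c = ld b c := by simp only [ld, h2]
        have e2 : off a c ≤ off b c + 1 := by
          by_cases g1 : a.1 = c.1
          · have g2 : b.1 ≠ c.1 := fun h => h1 (g1.trans h.symm)
            have e3 : off b c = 1 := by simp [off, g2]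
            have e4 : off a c ≤ 2 := by
              unfold off
              split_ifs <;> omega
            omega
          · have e3 : off a c = 1 := by simp [off, g1]
            omega
        omega
      · have e2 : off a c = off b c := by simp only [off, h1, h2]
        simp only [ld, e2]
        omega
    omega

lemma vert (a : Bool) (i : Fin m) : ∀ (n : ℕ) (s t : Fin (k + 1)), (s : ℕ) + n = t →
    N (GG k m) (a, s, some i) (a, t, some i) n := by
  intro n
  induction n with
  | zero =>
    intro s t h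
    have : s = t := Fin.ext (by omega)
    subst this
    exact N_self _ _
  | succ n ih =>
    intro s t h
    have h1 := ih s ⟨(s : ℕ) + n, by omega⟩ rfl
    have h2 : (GG k m).Adj (a, ⟨(s : ℕ) + n, by omega⟩, some i) (a, t, some i) := by
      refine Or.inr ⟨rfl, rfl, by simp, Or.inl ?_⟩
      simp only
      omega
    exact N_trans h1 (N_adj h2)

lemma vert' (a : Bool) (i : Fin m) (s t : Fin (k + 1)) :
    N (GG k m) (a, s, some i) (a, t, some i) (((s : ℕ) - (t : ℕ)) + ((t : ℕ) - (s : ℕ))) := by
  rcases le_total (s : ℕ) (t : ℕ) with h | h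
  · exact N_mono (vert a i ((t : ℕ) - s) s t (by omega)) (by omega)
  · exact N_mono (N_symm (vert a i ((s : ℕ) - t) t s (by omega))) (by omega)

lemma hor (a b : Bool) (h : a ≠ b) (t : Fin (k + 1)) (i j : Option (Fin m)) :
    N (GG k m) (a, t, i) (b, t, j) 1 := N_adj (Or.inl ⟨h, rfl⟩)

lemma upp (x y : W k m) (hx : x.2.2 ≠ none) : N (GG k m) x y (ld x y + off x y) := by
  obtain ⟨a, s, i⟩ := x
  obtain ⟨b, t, j⟩ := y
  obtain ⟨i, rfl⟩ := Option.ne_none_iff_exists'.1 hx
  have h1 := vert' (k := k) a i s t
  simp only [ld, off]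
  split_ifs with g1 g2
  · subst g1; subst g2
    exact h1
  · subst g1
    have h2 : N (GG k m) (a, t, some i) (!a, t, some i) 1 := hor _ _ (by simp) _ _ _
    have h3 : N (GG k m) (!a, t, some i) (a, t, j) 1 := hor _ _ (by simp) _ _ _
    exact N_trans h1 (N_trans h2 h3)
  · exact N_trans h1 (hor _ _ g1 _ _ _)

lemma off_le (x y : W k m) : off x y ≤ 2 := by
  unfold off
  split_ifs <;> omega

lemma ld_le (x y : W k m) : ld x y ≤ k := by
  unfold ld
  have := x.2.1.2
  have := y.2.1.2
  omega

lemma all (hm : 0 < m) (x y : W k m) : N (GG k m) x y (k + 3) := by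
  by_cases hx : x.2.2 = none
  · obtain ⟨a, s, i⟩ := x
    have h1 : N (GG k m) (a, s, i) (!a, s, some ⟨0, hm⟩) 1 := hor _ _ (by simp) _ _ _
    have h2 := upp (!a, s, some ⟨0, hm⟩) y (by simp)
    have h3 := off_le (!a, s, some ⟨0, hm⟩) y
    have h4 := ld_le (!a, s, some ⟨0, hm⟩) y
    exact N_mono (N_trans h1 h2) (by omega)
  · have h2 := upp x y hx
    have h3 := off_le x y
    have h4 := ld_le x y
    exact N_mono h2 (by omega)

lemma conn (hm : 0 < m) : (GG k m).Connected := by
  haveI : Nonempty (W k m) := ⟨(true, 0, none)⟩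
  exact ⟨fun x y => ⟨(all hm x y).choose⟩⟩

lemma bip : (GG k m).IsBipartite := by
  have C : (GG k m).Coloring Bool := SimpleGraph.Coloring.mk
    (fun x => xor x.1 (decide ((x.2.1 : ℕ) % 2 = 1))) (by
      rintro ⟨a, s, i⟩ ⟨b, t, j⟩ (⟨h1, h2⟩ | ⟨h1, h2, h3, h4⟩)
      · simp only at h1 h2 ⊢
        subst h2
        intro h
        apply h1
        revert h
        cases a <;> cases b <;> simp
      · simp only at h1 h2 h4 ⊢
        subst h1
        intro h
        have h5 : decide ((s : ℕ) % 2 = 1) = decide ((t : ℕ) % 2 = 1) := by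
          revert h
          cases a <;> simp
        rw [decide_eq_decide] at h5
        omega)
  have := C.colorable
  simpa using this

lemma ecc_le (hm : 0 < m) (x : W k m) : ecc (GG k m) x ≤ k + 3 :=
  Finset.sup_le fun y _ => (N_iff (conn hm)).1 (all hm x y)

/-- lower bound for `IR_b` -/
lemma ir_ge (hm : 0 < m) : 2 * m * k ≤ IRb (GG k m) := by
  classical
  have hG := conn (k := k) hm
  let f : W k m → ℕ := fun x => if x.2.1 = Fin.last k ∧ x.2.2 ≠ none then k else 0
  have hb : IsBroadcast (GG k m) f := by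
    rintro ⟨a, s, i⟩
    simp only [f]
    split_ifs with h
    · refine le_trans ?_ (dist_le_ecc (GG k m) _ (a, 0, i))
      have h1 := low ((N_iff hG).2 (le_refl ((GG k m).dist (a, s, i) (a, 0, i))))
      refine le_trans ?_ h1
      simp only [ld, h.1]
      simp
    · exact Nat.zero_le _
  have hirr : Irredundant (GG k m) f := by
    rintro ⟨a, s, i⟩ hv
    have hk : s = Fin.last k ∧ i ≠ none := by
      by_contra h
      simp only [f, if_neg h] at hv
      omega
    obtain ⟨rfl, hi⟩ := hk
    have hfv : f (a, Fin.last k, i) = k := by simp [f, hi]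
    refine ⟨(a, 0, i), pb_of ?_ ?_ ?_⟩
    · rw [hfv, ← N_iff hG]
      have h1 := upp (k := k) (m := m) (a, 0, i) (a, Fin.last k, i) hi
      refine N_mono h1 ?_
      simp [ld, off]
    · rintro ⟨b, t, j⟩ hne hw hd
      have hk' : t = Fin.last k ∧ j ≠ none := by
        by_contra h
        simp only [f, if_neg h] at hw
        omega
      obtain ⟨rfl, hj⟩ := hk'
      have hfw : f (b, Fin.last k, j) = k := by simp [f, hj]
      rw [hfw, ← N_iff hG] at hd
      have h1 := low hd
      have h2 : 1 ≤ off (k := k) (m := m) (a, 0, i) (b, Fin.last k, j) := by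
        unfold off
        simp only
        split_ifs with g1 g2
        · exact absurd (by rw [g1, g2]) hne
        · omega
        · omega
      have h3 : ld (k := k) (m := m) (a, 0, i) (b, Fin.last k, j) = k := by simp [ld]
      omega
    · intro _
      rw [hfv]
      have h1 := low ((N_iff hG).2 (le_refl ((GG k m).dist (a, 0, i) (a, Fin.last k, i))))
      have h3 : ld (k := k) (m := m) (a, 0, i) (a, Fin.last k, i) = k := by simp [ld]
      omega
  have hc : 2 * m * k ≤ cost f := by
    let e : Bool × Fin m → W k m := fun x => (x.1, Fin.last k, some x.2)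
    have he : Function.Injective e := by
      rintro ⟨a, i⟩ ⟨b, j⟩ h
      simp only [e, Prod.mk.injEq, Option.some.injEq, true_and] at h
      rw [h.1, h.2]
    have h1 : ∑ x ∈ Finset.univ.image e, f x ≤ cost f :=
      Finset.sum_le_sum_of_subset (Finset.subset_univ _)
    rw [Finset.sum_image (fun x _ y _ h => he h)] at h1
    have h2 : ∑ x : Bool × Fin m, f (e x) = 2 * m * k := by
      have : ∀ x : Bool × Fin m, f (e x) = k := by
        intro x
        simp [f, e]
      simp only [this]
      simp
    omega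
  exact hc.trans (le_csSup (bdd_ir _) ⟨f, hb, hirr, rfl⟩)

/-- the constant in the upper bound for `Γ_b` -/
def CC (k : ℕ) : ℕ := 2 * (k + 1) * (k + 3) + 2 * (k + 1) * (k + 4) * (k + 3)

/-- vertices `(b,t,none)` are only reached through the other side -/
lemma z_reach {b : Bool} {t : Fin (k + 1)} {w : W k m} {n : ℕ} (hne : w ≠ (b, t, none))
    (h : N (GG k m) w (b, t, none) n) (j : Option (Fin m)) : N (GG k m) w (b, t, j) n := by
  obtain ⟨p, hp⟩ := N_symm h
  cases p with
  | nil => exact absurd rfl hne
  | @cons _ y _ hadj q =>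
    rw [SimpleGraph.Walk.length_cons] at hp
    rcases hadj with ⟨h1, h2⟩ | ⟨h1, h2, h3, h4⟩
    · obtain ⟨b', t', j'⟩ := y
      simp only at h1 h2
      subst h2
      have h5 : N (GG k m) w (b', t, j') (n - 1) := N_symm ⟨q, by omega⟩
      exact N_mono (N_trans h5 (hor b' b (Ne.symm h1) t j' j)) (by omega)
    · exact absurd rfl h3

lemma gamma_cost (hm : 0 < m) {f : W k m → ℕ} (hf : IsMinDom (GG k m) f) :
    cost f ≤ (k + 1) * (m + 1) + CC k := by
  classical
  have hG := conn (k := k) hm
  have hirr := irr_of_minDom hf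
  obtain ⟨hfb, hdom, -⟩ := hf
  have hK : ∀ x, f x ≤ k + 3 := fun x => (hfb x).trans (ecc_le hm x)
  set S : Finset (W k m) := Finset.univ.filter (fun v => 0 < f v) with hS
  have memS : ∀ v, v ∈ S ↔ 0 < f v := fun v => by simp [hS]
  -- the three kinds of broadcasting vertices
  set Z : Finset (W k m) := S.filter (fun x => x.2.2 = none) with hZ
  set S' : Finset (W k m) := S.filter (fun x => ¬ x.2.2 = none) with hS'
  set T0 : Finset (W k m) := S'.filter (fun x => ∃ t : Fin (k + 1), (x.1, t, x.2.2) ∈ PB (GG k m) f x) with hT0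
  set T1 : Finset (W k m) := S'.filter (fun x => ¬ ∃ t : Fin (k + 1), (x.1, t, x.2.2) ∈ PB (GG k m) f x) with hT1
  have hcost : cost f = ∑ v ∈ Z, f v + (∑ v ∈ T0, f v + ∑ v ∈ T1, f v) := by
    rw [hT0, hT1, Finset.sum_filter_add_sum_filter_not, hZ, hS', Finset.sum_filter_add_sum_filter_not]
    unfold cost
    rw [hS, Finset.sum_filter]
    apply Finset.sum_congr rfl
    intro v _
    split_ifs <;> omega
  -- Z
  have hZc : ∑ v ∈ Z, f v ≤ 2 * (k + 1) * (k + 3) := by
    have h1 : Z.card ≤ 2 * (k + 1) := by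
      have h2 : Z.card ≤ (Finset.univ : Finset (Bool × Fin (k + 1))).card := by
        apply Finset.card_le_card_of_injOn (fun x => (x.1, x.2.1)) (fun _ _ => Finset.mem_univ _)
        rintro ⟨a, s, i⟩ hx ⟨b, t, j⟩ hy h
        simp only [hZ, Finset.coe_filter, Set.mem_ofPred_eq, Prod.mk.injEq] at hx hy h
        rw [hx.2, hy.2, h.1, h.2]
      simpa using h2
    calc ∑ v ∈ Z, f v ≤ Z.card • (k + 3) := Finset.sum_le_card_nsmul _ _ _ (fun x _ => hK x)
      _ ≤ 2 * (k + 1) * (k + 3) := by
        rw [smul_eq_mul]; exact Nat.mul_le_mul_right _ h1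
  -- T1
  have hT1c : ∑ v ∈ T1, f v ≤ 2 * (k + 1) * (k + 4) * (k + 3) := by
    have h1 : T1.card ≤ 2 * (k + 1) * (k + 4) := by
      have h2 : T1.card ≤ (Finset.univ : Finset (Bool × Fin (k + 1) × Fin (k + 4))).card := by
        apply Finset.card_le_card_of_injOn
          (fun x => (x.1, x.2.1, (⟨f x, by have := hK x; omega⟩ : Fin (k + 4))))
          (fun _ _ => Finset.mem_univ _)
        rintro ⟨a, s, i⟩ hx ⟨b, t, j⟩ hy h
        simp only [Prod.mk.injEq, Fin.mk.injEq] at h
        obtain ⟨rfl, rfl, hff⟩ := h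
        rw [Finset.mem_coe, hT1, Finset.mem_filter, hS', Finset.mem_filter, memS] at hx hy
        obtain ⟨⟨hx1, hx2⟩, hx3⟩ := hx
        obtain ⟨⟨hy1, hy2⟩, hy3⟩ := hy
        by_contra hne
        obtain ⟨⟨b, t, l⟩, hp⟩ := hirr _ hx1
        have hp' := pb_facts hp
        -- the private vertex of the first is heard by the second
        have hne' : ((a, s, j) : W k m) ≠ (a, s, i) := fun h => hne h.symm
        apply hp'.2.1 (a, s, j) hne' hy1
        rw [← N_iff hG]
        apply N_symm
        have h5 := upp (k := k) (m := m) (a, s, j) (b, t, l) hy2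
        refine N_mono h5 ?_
        have h6 := low (N_symm ((N_iff hG).2 hp'.1))
        rw [hff] at h6
        refine le_trans ?_ h6
        have h7 : ¬ (b = a ∧ l = i) := by
          rintro ⟨rfl, rfl⟩
          exact hx3 ⟨t, hp⟩
        have e1 : ld (k := k) (m := m) (a, s, j) (b, t, l) = ld (k := k) (m := m) (a, s, i) (b, t, l) := rfl
        have e2 : off (k := k) (m := m) (a, s, j) (b, t, l) ≤ off (k := k) (m := m) (a, s, i) (b, t, l) := by
          by_cases g1 : a = b
          · have g2 : i ≠ l := fun h => h7 ⟨g1.symm, h.symm⟩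
            have e3 : off (k := k) (m := m) (a, s, i) (b, t, l) = 2 := by simp [off, g1, g2]
            have e4 := off_le (k := k) (m := m) (a, s, j) (b, t, l)
            omega
          · simp [off, g1]
        omega
      simpa [Fintype.card_prod, mul_assoc] using h2
    calc ∑ v ∈ T1, f v ≤ T1.card • (k + 3) := Finset.sum_le_card_nsmul _ _ _ (fun x _ => hK x)
      _ ≤ 2 * (k + 1) * (k + 4) * (k + 3) := by
        rw [smul_eq_mul]; exact Nat.mul_le_mul_right _ h1
  -- T0
  have hT0c : ∑ v ∈ T0, f v ≤ (k + 1) * (m + 1) := by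
    have hch : ∀ x : W k m, ∃ t : Fin (k + 1), x ∈ T0 → (x.1, t, x.2.2) ∈ PB (GG k m) f x := by
      intro x
      by_cases hx : x ∈ T0
      · have hx' := hx
        rw [hT0, Finset.mem_filter] at hx'
        obtain ⟨t, ht⟩ := hx'.2
        exact ⟨t, fun _ => ht⟩
      · exact ⟨0, fun h => absurd h hx⟩
    choose t ht using hch
    have hbasic : ∀ x ∈ T0, 0 < f x ∧ x.2.2 ≠ none := by
      intro x hx
      rw [hT0, Finset.mem_filter, hS', Finset.mem_filter, memS] at hx
      exact hx.1
    -- strength
    have hstr : ∀ x ∈ T0, (((x.2.1 : ℕ) ≠ (t x : ℕ)) →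
          f x = ((x.2.1 : ℕ) - (t x : ℕ)) + ((t x : ℕ) - (x.2.1 : ℕ))) ∧
        (((x.2.1 : ℕ) = (t x : ℕ)) → f x = 1) := by
      intro x hx
      obtain ⟨hx1, hx2⟩ := hbasic x hx
      obtain ⟨a1, -, a3⟩ := pb_facts (ht x hx)
      have h1 := low ((N_iff hG).2 a1)
      have h2 := upp (k := k) (m := m) (x.1, t x, x.2.2) x hx2
      rw [N_iff hG] at h2
      simp only [ld, off, if_true] at h1 h2
      constructor
      · intro hne
        by_cases hfx : 2 ≤ f x
        · have := a3 hfx
          omega
        · omega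
      · intro he
        by_cases hfx : 2 ≤ f x
        · have := a3 hfx
          omega
        · omega
    -- not heard
    have hnot : ∀ x ∈ T0, ∀ y ∈ S, y ≠ x → y.2.2 ≠ none →
        f y < ld y (x.1, t x, x.2.2) + off y (x.1, t x, x.2.2) := by
      intro x hx y hy hne hyn
      obtain ⟨-, a2, -⟩ := pb_facts (ht x hx)
      have h1 := a2 y hne ((memS y).1 hy)
      rw [← N_iff hG] at h1
      by_contra hcon
      push Not at hcon
      exact h1 (N_symm (N_mono (upp y _ hyn) hcon))
    have hT0S : ∀ x ∈ T0, x ∈ S := fun x hx => (memS x).2 (hbasic x hx).1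
    -- charging
    let ch : W k m → Finset (Fin (k + 1)) := fun x =>
      if (x.2.1 : ℕ) = (t x : ℕ) then {t x} else
        if (t x : ℕ) < (x.2.1 : ℕ) then Finset.Ico (t x) x.2.1 else Finset.Ioc x.2.1 (t x)
    have hchcard : ∀ x ∈ T0, (ch x).card = f x := by
      intro x hx
      obtain ⟨h1, h2⟩ := hstr x hx
      simp only [ch]
      split_ifs with g1 g2
      · rw [h2 g1, Finset.card_singleton]
      · rw [h1 g1, Fin.card_Ico]
        omega
      · rw [h1 g1, Fin.card_Ioc]
        omega
    have hchmem : ∀ x (l : Fin (k + 1)), l ∈ ch x →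
        ((x.2.1 : ℕ) = (t x : ℕ) ∧ (l : ℕ) = (t x : ℕ)) ∨
        ((t x : ℕ) ≤ (l : ℕ) ∧ (l : ℕ) < (x.2.1 : ℕ)) ∨
        ((x.2.1 : ℕ) < (l : ℕ) ∧ (l : ℕ) ≤ (t x : ℕ)) := by
      intro x l hl
      simp only [ch] at hl
      split_ifs at hl with g1 g2
      · rw [Finset.mem_singleton] at hl
        exact Or.inl ⟨g1, by rw [hl]⟩
      · rw [Finset.mem_Ico, Fin.le_def, Fin.lt_def] at hl
        exact Or.inr (Or.inl hl)
      · rw [Finset.mem_Ioc, Fin.le_def, Fin.lt_def] at hl
        exact Or.inr (Or.inr hl)
    have hlevel : ∀ l : Fin (k + 1), (T0.filter (fun x => l ∈ ch x)).card ≤ m + 1 := by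
      intro l
      let X : Bool → Finset (W k m) := fun a => T0.filter (fun x => l ∈ ch x ∧ x.1 = a)
      have hXm : ∀ a x, x ∈ X a → x ∈ T0 ∧ l ∈ ch x ∧ x.1 = a := by
        intro a x hx
        simpa only [X, Finset.mem_filter] using hx
      have hXcard : ∀ a, (X a).card ≤ m := by
        intro a
        have h1 : (X a).card ≤ ((Finset.univ : Finset (Fin m)).image some).card := by
          apply Finset.card_le_card_of_injOn (fun x => x.2.2)
          · intro x hx
            obtain ⟨hx1, -, -⟩ := hXm a x hx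
            obtain ⟨j, hj⟩ := Option.ne_none_iff_exists'.1 (hbasic x hx1).2
            rw [Finset.mem_coe, Finset.mem_image]
            exact ⟨j, Finset.mem_univ _, hj.symm⟩
          · intro x hx y hy hxy
            obtain ⟨hx1, hx2, hx3⟩ := hXm a x hx
            obtain ⟨hy1, hy2, hy3⟩ := hXm a y hy
            simp only at hxy
            by_contra hne
            have c1 := hnot x hx1 y (hT0S y hy1) (Ne.symm hne) (hbasic y hy1).2
            have c2 := hnot y hy1 x (hT0S x hx1) hne (hbasic x hx1).2
            have c3 := hstr x hx1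
            have c4 := hstr y hy1
            have c5 := hchmem x l hx2
            have c6 := hchmem y l hy2
            have e1 : off y (x.1, t x, x.2.2) = 0 := by simp [off, hx3, hy3, hxy]
            have e2 : off x (y.1, t y, y.2.2) = 0 := by simp [off, hx3, hy3, hxy]
            rw [e1] at c1
            rw [e2] at c2
            simp only [ld] at c1 c2
            omega
        rw [Finset.card_image_of_injective _ (Option.some_injective _)] at h1
        simpa using h1
      have hsplit : (T0.filter (fun x => l ∈ ch x)).card = (X true).card + (X false).card := by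
        rw [← Finset.card_union_of_disjoint]
        · congr 1
          ext x
          simp only [X, Finset.mem_union, Finset.mem_filter]
          constructor
          · rintro ⟨h1, h2⟩
            cases hx : x.1
            · exact Or.inr ⟨h1, h2, rfl⟩
            · exact Or.inl ⟨h1, h2, rfl⟩
          · rintro (⟨h1, h2, -⟩ | ⟨h1, h2, -⟩) <;> exact ⟨h1, h2⟩
        · rw [Finset.disjoint_left]
          intro x hx hx'
          have h1 := (hXm _ _ hx).2.2
          have h2 := (hXm _ _ hx').2.2
          rw [h1] at h2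
          exact absurd h2 (by simp)
      have hsame : ∀ x ∈ X true, ∀ y ∈ X false, (t x : ℕ) = (t y : ℕ) := by
        intro x hx y hy
        obtain ⟨hx1, hx2, hx3⟩ := hXm _ x hx
        obtain ⟨hy1, hy2, hy3⟩ := hXm _ y hy
        have hne : x ≠ y := by
          rintro rfl
          rw [hx3] at hy3
          exact absurd hy3 (by simp)
        have c1 := hnot x hx1 y (hT0S y hy1) (Ne.symm hne) (hbasic y hy1).2
        have c2 := hnot y hy1 x (hT0S x hx1) hne (hbasic x hx1).2
        have c3 := hstr x hx1
        have c4 := hstr y hy1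
        have c5 := hchmem x l hx2
        have c6 := hchmem y l hy2
        have e1 : off y (x.1, t x, x.2.2) = 1 := by simp [off, hx3, hy3]
        have e2 : off x (y.1, t y, y.2.2) = 1 := by simp [off, hx3, hy3]
        rw [e1] at c1
        rw [e2] at c2
        simp only [ld] at c1 c2
        omega
      rw [hsplit]
      have hXt := hXcard true
      have hXf := hXcard false
      rcases (X true).eq_empty_or_nonempty with h | ⟨x₀, hx₀⟩
      · rw [h, Finset.card_empty]; omega
      rcases (X false).eq_empty_or_nonempty with h | ⟨y₀, hy₀⟩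
      · rw [h, Finset.card_empty]; omega
      -- both sides present: use the vertex `(false, t, none)`
      obtain ⟨hx1, hx2, hx3⟩ := hXm _ x₀ hx₀
      obtain ⟨u₀, hu₀, hu₀'⟩ := hdom (false, t x₀, none)
      rw [← N_iff hG] at hu₀'
      replace hu₀' := N_symm hu₀'
      by_cases hu : u₀ = (false, t x₀, none)
      · exfalso
        obtain ⟨-, a2, -⟩ := pb_facts (ht x₀ hx1)
        apply a2 u₀ ?_ hu₀
        · rw [← N_iff hG, hu, hx3]
          refine N_mono (hor true false (by simp) _ _ _) ?_
          rw [← hu]; exact hu₀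
        · intro h
          rw [h] at hu
          have := (hbasic x₀ hx1).2
          rw [hu] at this
          exact this rfl
      · have hsub : X false ⊆ {u₀} := by
          intro y hy
          rw [Finset.mem_singleton]
          obtain ⟨hy1, hy2, hy3⟩ := hXm _ y hy
          by_contra hne
          obtain ⟨-, a2, -⟩ := pb_facts (ht y hy1)
          apply a2 u₀ (fun h => hne h.symm) hu₀
          rw [← N_iff hG]
          apply N_symm
          have h1 := z_reach hu hu₀' y.2.2
          have h2 : t x₀ = t y := Fin.ext (hsame x₀ hx₀ y hy)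
          rw [h2] at h1
          rw [hy3]
          exact h1
        have := Finset.card_le_card hsub
        rw [Finset.card_singleton] at this
        omega
    have h1 : ∑ v ∈ T0, f v = ∑ l : Fin (k + 1), (T0.filter (fun x => l ∈ ch x)).card := by
      have h2 : ∑ v ∈ T0, f v = ∑ v ∈ T0, ∑ l : Fin (k + 1), (if l ∈ ch v then 1 else 0) := by
        apply Finset.sum_congr rfl
        intro v hv
        rw [← hchcard v hv]
        simp
      rw [h2, Finset.sum_comm]
      apply Finset.sum_congr rfl
      intro l _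
      rw [Finset.card_filter]
    rw [h1]
    calc ∑ l : Fin (k + 1), (T0.filter (fun x => l ∈ ch x)).card ≤ ∑ _l : Fin (k + 1), (m + 1) :=
          Finset.sum_le_sum fun l _ => hlevel l
      _ = (k + 1) * (m + 1) := by simp
  rw [hcost]
  unfold CC
  omega

lemma gamma_le (hm : 0 < m) : Gammab (GG k m) ≤ (k + 1) * (m + 1) + CC k := by
  apply csSup_le'
  rintro c ⟨f, hf, rfl⟩
  exact gamma_cost hm hf

end examples

/-- For connected bipartite graphs with at least two vertices the supremum of `IR_b/Γ_b` is `2`,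
and it is not attained. -/
theorem result : IsLUB ratios 2 ∧ (2 : ℝ) ∉ ratios := by
  have hlt : ∀ r ∈ ratios, r < 2 := by
    rintro r ⟨V, _, G, hG, h2, hb, rfl⟩
    have h1 := IRb_lt hG h2 hb
    have h3 : 0 < Gammab G := by omega
    rw [div_lt_iff₀ (by exact_mod_cast h3)]
    exact_mod_cast h1
  refine ⟨⟨fun r hr => (hlt r hr).le, ?_⟩, fun h => lt_irrefl _ (hlt 2 h)⟩
  intro b hb
  by_contra hb2
  push Not at hb2
  obtain ⟨k, hk⟩ := exists_nat_gt (|b| / (2 - b))
  have hpos : 0 < 2 - b := by linarith
  rw [div_lt_iff₀ hpos] at hk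
  have hkb : 0 < 2 * (k : ℝ) - b * (k + 1) := by
    have := le_abs_self b
    nlinarith
  obtain ⟨m, hm⟩ := exists_nat_gt (|b| * ((k : ℝ) + 1 + CC k) / (2 * (k : ℝ) - b * (k + 1)))
  rw [div_lt_iff₀ hkb] at hm
  have hC : (0 : ℝ) ≤ CC k := Nat.cast_nonneg _
  have hk0 : (0 : ℝ) ≤ k := Nat.cast_nonneg _
  have hm0' : (0 : ℝ) < m := by
    have h1 : 0 ≤ |b| * ((k : ℝ) + 1 + CC k) := by positivity
    by_contra hcon
    push Not at hcon
    nlinarith
  have hm0 : 0 < m := by exact_mod_cast hm0'
  have hG := conn (k := k) hm0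
  have h2 : 2 ≤ Fintype.card (W k m) := by
    simp only [W, Fintype.card_prod, Fintype.card_bool]
    have : 0 < Fintype.card (Fin (k + 1)) * Fintype.card (Option (Fin m)) := by simp
    omega
  have hr : (IRb (GG k m) : ℝ) / (Gammab (GG k m) : ℝ) ≤ b :=
    hb ⟨W k m, inferInstance, GG k m, hG, h2, bip, rfl⟩
  have h3 := IRb_lt hG h2 bip
  have hg0 : 0 < Gammab (GG k m) := by omega
  have hg0' : (0 : ℝ) < Gammab (GG k m) := by exact_mod_cast hg0
  rw [div_le_iff₀ hg0'] at hr
  have h4 : (2 * m * k : ℝ) ≤ IRb (GG k m) := by exact_mod_cast ir_ge (k := k) hm0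
  have h5 : (Gammab (GG k m) : ℝ) ≤ (k + 1) * (m + 1) + CC k := by
    exact_mod_cast gamma_le (k := k) hm0
  by_cases hb0 : 0 ≤ b
  · have h6 : b * (Gammab (GG k m) : ℝ) ≤ b * ((k + 1) * (m + 1) + CC k) :=
      mul_le_mul_of_nonneg_left h5 hb0
    rw [abs_of_nonneg hb0] at hm
    nlinarith
  · push Not at hb0
    have h6 : b * (Gammab (GG k m) : ℝ) < 0 := mul_neg_of_neg_of_pos hb0 hg0'
    have h7 : (0 : ℝ) ≤ IRb (GG k m) := Nat.cast_nonneg _
    linarith

end Pool.Agent.Results.MP_1867c4_co.BipartiteRatio
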